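import Mathlib

/-!
# Golod rings: definitions used in the statement

The Koszul complex of a commutative ring `R` on elements `x_1, …, x_n` is the exterior algebra of
`R^n` with the antiderivation `e_i ↦ x_i`.
-/

set_option autoImplicit false

namespace Pool.Agent.V113.Gol.Stmt

open CategoryTheory

universe u

/-- The exterior algebra of `R^n`. -/
def Kos (R : Type u) [CommRing R] (n : ℕ) : Type u := ExteriorAlgebra R (Fin n → R)

noncomputable instance (R : Type u) [CommRing R] (n : ℕ) : Ring (Kos R n) :=
  inferInstanceAs (Ring (ExteriorAlgebra R (Fin n → R)))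

noncomputable instance (R : Type u) [CommRing R] (n : ℕ) : Algebra R (Kos R n) :=
  inferInstanceAs (Algebra R (ExteriorAlgebra R (Fin n → R)))

section

variable {R : Type u} [CommRing R] {n : ℕ}

/-- The inclusion of `R^n` in its exterior algebra. -/
noncomputable def iota : (Fin n → R) →ₗ[R] Kos R n := ExteriorAlgebra.ι R

/-- The part of degree `i` of the exterior algebra: the span of the products of `i` vectors. -/
noncomputable def Deg (R : Type u) [CommRing R] (n i : ℕ) : Submodule R (Kos R n) :=
  LinearMap.range (iota (R := R) (n := n)) ^ i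

/-- `d` is the Koszul differential on `x_1, …, x_n`: `d 1 = 0` and
`d (v b) = (∑ v_i x_i) b - v d(b)` for `v ∈ R^n`. -/
def IsKoszul (x : Fin n → R) (d : Kos R n →ₗ[R] Kos R n) : Prop :=
  d 1 = 0 ∧ ∀ (v : Fin n → R) (b : Kos R n),
    d (iota v * b) = (∑ i, v i * x i) • b - iota v * d b

variable (d : Kos R n →ₗ[R] Kos R n)

/-- `z` is a cycle of degree `i`. -/
def IsCycle (i : ℕ) (z : Kos R n) : Prop := z ∈ Deg R n i ∧ d z = 0

/-- `z` and `z'` of degree `i` differ by a boundary. -/
def Homologous (i : ℕ) (z z' : Kos R n) : Prop := ∃ w ∈ Deg R n (i + 1), z = z' + d w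

/-- The cycles `z b`, of degree `deg b ≥ 1`, represent a `k`-basis of the homology in positive
degrees: every cycle of degree `i ≥ 1` is homologous to exactly one linear combination of those
of degree `i`. -/
def IsBasis (k : Type u) [Field k] [Algebra k R] {B : Type u} (deg : B → ℕ) (z : B → Kos R n) :
    Prop :=
  (∀ b, 1 ≤ deg b ∧ IsCycle d (deg b) (z b)) ∧
    ∀ (i : ℕ) (y : Kos R n), 1 ≤ i → IsCycle d i y →
      ∃! c : {b : B // deg b = i} →₀ k,
        Homologous d i y (c.sum fun b a => algebraMap k R a • z b.1)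

/-- The degree of `μ (b_1, …, b_p)`. -/
def mdeg {B : Type u} (deg : B → ℕ) (w : List B) : ℕ := (w.map deg).sum + w.length - 1

/-- The equations of a trivial Massey operation:
`d μ (w) = ∑ (-1) ^ (1 + deg μ (u)) μ (u) μ (v)`, sum over `w = u v` with `u, v` nonempty. -/
def IsMassey {B : Type u} (deg : B → ℕ) (μ : List B → Kos R n) : Prop :=
  ∀ w : List B, 2 ≤ w.length → μ w ∈ Deg R n (mdeg deg w) ∧
    d (μ w) = ∑ j ∈ Finset.Ico 1 w.length,
      (-1 : R) ^ (1 + mdeg deg (w.take j)) • (μ (w.take j) * μ (w.drop j))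

/-- The Koszul complex of `R` on `x` has a trivial Massey operation. -/
def HasTrivialMassey (x : Fin n → R) (k : Type u) [Field k] [Algebra k R] : Prop :=
  ∃ d : Kos R n →ₗ[R] Kos R n, IsKoszul x d ∧
    ∃ (B : Type u) (deg : B → ℕ) (μ : List B → Kos R n),
      IsBasis d k deg (fun b => μ [b]) ∧ IsMassey d deg μ

/-- The depth of `R` with respect to the ideal `m`: the least `i` with `Ext^i_R(R/m, R) ≠ 0`. -/
noncomputable def depth (m : Ideal R) : ℕ∞ :=
  sInf {d : ℕ∞ | ∃ i : ℕ, d = (i : ℕ∞) ∧
    Nontrivial (Abelian.Ext (ModuleCat.of R (R ⧸ m)) (ModuleCat.of R R) i)}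

/-- The type of `R` with respect to the ideal `m`: the length of `Ext^depth_R(R/m, R)`. -/
noncomputable def type (m : Ideal R) : ℕ∞ :=
  Module.length R (Abelian.Ext (ModuleCat.of R (R ⧸ m)) (ModuleCat.of R R) (depth m).toNat)

end

section

variable {k : Type u} [Field k] {n : ℕ}

variable (k n) in
/-- The ideal `(x_1, …, x_n)` of `k[x_1, …, x_n]`. -/
noncomputable def vars : Ideal (MvPolynomial (Fin n) k) :=
  Ideal.span (Set.range MvPolynomial.X)

variable (I : Ideal (MvPolynomial (Fin n) k))

/-- `I` is a homogeneous ideal (standard grading). -/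
def IsHomog : Prop := ∀ F ∈ I, ∀ i : ℕ, MvPolynomial.homogeneousComponent i F ∈ I

/-- The ring `R = k[x_1, …, x_n] / I`. -/
abbrev Q : Type u := MvPolynomial (Fin n) k ⧸ I

/-- The images of the variables in `R = k[x_1, …, x_n] / I`. -/
noncomputable def xs (i : Fin n) : Q I := Ideal.Quotient.mk I (MvPolynomial.X i)

/-- The Krull dimension of `R`. -/
noncomputable def dimQ : WithBot ℕ∞ := ringKrullDim (Q I)

/-- The depth of `R` with respect to `(x_1, …, x_n)`. -/
noncomputable def depthQ : ℕ∞ := depth (Ideal.span (Set.range (xs I)))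

/-- The Cohen-Macaulay type of `R`. -/
noncomputable def typeQ : ℕ∞ := type (Ideal.span (Set.range (xs I)))

/-- `R = k[x_1, …, x_n] / I` is Golod: the Koszul complex on the variables has a trivial Massey
operation. -/
def IsGolod : Prop := HasTrivialMassey (xs I) k

end

end Pool.Agent.V113.Gol.Stmt
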