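import Pool.Agent.V113.Gol.Fin
import Pool.Agent.V113.Gol.Stmt

/-!
# Conversion between the two forms of the definition of Golod rings
-/

set_option autoImplicit false

namespace Pool.Agent.V113.Gol.Conv

open Pool.Agent.V113.Gol

universe u

section

variable {R : Type u} [CommRing R] {n : ℕ} {k : Type u} [Field k] [Algebra k R]

theorem smul_conv (a : k) (z : KK R n) : algebraMap k R a • z = a • z := algebraMap_smul _ _ _

theorem sign_conv (e : ℕ) (z : KK R n) : (-1 : KK R n) ^ e * z = (-1 : R) ^ e • z := by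
  rw [Algebra.smul_def, map_pow, map_neg, map_one]

theorem isBasis_conv (x : Fin n → R) {B : Type u} (deg : B → ℕ) (z : B → KK R n)
    (h : IsBasis x k deg z) : Stmt.IsBasis (R := R) (n := n) (dd x) k deg z := by
  obtain ⟨h1, h2⟩ := h
  refine ⟨h1, ?_⟩
  intro i y hi hy
  have h := h2 i y hi hy
  refine (existsUnique_congr fun c => ?_).2 h
  have hs : (c.sum fun b a => algebraMap k R a • (z b.1 : KK R n)) =
      c.sum fun b a => a • z b.1 :=
    Finsupp.sum_congr fun b _ => smul_conv _ _
  constructor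
  · rintro ⟨w, hw, e⟩
    exact ⟨w, hw, e.trans (congrArg (· + dd x w) hs)⟩
  · rintro ⟨w, hw, e⟩
    exact ⟨w, hw, e.trans (congrArg (· + dd x w) hs.symm)⟩

theorem isMassey_conv (x : Fin n → R) {B : Type u} (deg : B → ℕ) (μ : List B → KK R n)
    (h : IsMassey x deg μ) : Stmt.IsMassey (R := R) (n := n) (dd x) deg μ := by
  intro w hw
  obtain ⟨g1, g2⟩ := h w hw
  refine ⟨g1, g2.trans ?_⟩
  exact Finset.sum_congr rfl fun j _ => sign_conv _ _

theorem conv (x : Fin n → R) (h : HasTrivialMassey x k) : Stmt.HasTrivialMassey x k := by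
  obtain ⟨B, deg, μ, h1, h3⟩ := h
  refine ⟨dd x, ⟨?_, ?_⟩, B, deg, μ, isBasis_conv x deg _ h1, isMassey_conv x deg μ h3⟩
  · exact CliffordAlgebra.contractLeft_one _ _
  · intro v b
    exact Gen.dd_one_mul _ v b

end

end Pool.Agent.V113.Gol.Conv
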