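import Pool.Agent.V113.Gol.Defs

/-!
# Linear syzygies of the variables modulo cubic terms
-/

set_option autoImplicit false

namespace Pool.Agent.V113.Gol

open MvPolynomial

universe u

section coeffs

variable {k : Type u} [Field k] {n : ℕ}

/-- The exponent of the variable `X i`. -/
noncomputable abbrev s1 (i : Fin n) : Fin n →₀ ℕ := Finsupp.single i 1

theorem degree_s1 (i : Fin n) : Finsupp.degree (s1 i) = 1 := by simp [s1]

theorem degree_s2 (i j : Fin n) : Finsupp.degree (s1 i + s1 j) = 2 := by simp [s1]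

theorem s1_ne (i : Fin n) : s1 i ≠ 0 := by simp [s1]

theorem s1_inj {i j : Fin n} (h : s1 i = s1 j) : i = j := by
  by_contra hne
  have := DFunLike.congr_fun h i
  rw [Finsupp.single_eq_same, Finsupp.single_eq_of_ne hne] at this
  exact one_ne_zero this

theorem degree_lt_two {d : Fin n →₀ ℕ} (h : Finsupp.degree d < 2) : d = 0 ∨ ∃ i, d = s1 i := by
  by_cases h0 : d = 0
  · exact Or.inl h0
  · right
    obtain ⟨i, hi⟩ := Finsupp.ne_iff.1 h0
    have hi' : 1 ≤ d i := Nat.one_le_iff_ne_zero.2 hi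
    have h1 : s1 i ≤ d := Finsupp.single_le_iff.2 hi'
    obtain ⟨e, rfl⟩ := exists_add_of_le h1
    rw [map_add, degree_s1] at h
    have h2 : Finsupp.degree e = 0 := by omega
    rw [Finsupp.degree_eq_zero_iff] at h2
    subst h2
    exact ⟨i, by rw [add_zero]⟩

theorem mem_sq_iff (F : MvPolynomial (Fin n) k) :
    F ∈ idealOfVars (Fin n) k ^ 2 ↔ coeff 0 F = 0 ∧ ∀ i, coeff (s1 i) F = 0 := by
  rw [mem_pow_idealOfVars_iff']
  constructor
  · intro h
    exact ⟨h 0 (by simp), fun i => h _ (by rw [degree_s1]; norm_num)⟩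
  · rintro ⟨h0, h1⟩ d hd
    rcases degree_lt_two hd with rfl | ⟨i, rfl⟩
    · exact h0
    · exact h1 i

theorem cub_one {F : MvPolynomial (Fin n) k} (h : F ∈ idealOfVars (Fin n) k ^ 3) (i : Fin n) :
    coeff (s1 i) F = 0 :=
  (mem_pow_idealOfVars_iff' _ _).1 h _ (by rw [degree_s1]; norm_num)

theorem cub_two {F : MvPolynomial (Fin n) k} (h : F ∈ idealOfVars (Fin n) k ^ 3) (i j : Fin n) :
    coeff (s1 i + s1 j) F = 0 :=
  (mem_pow_idealOfVars_iff' _ _).1 h _ (by rw [degree_s2]; norm_num)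

theorem coeff_XF_one (F : MvPolynomial (Fin n) k) (l i : Fin n) :
    coeff (s1 i) (X l * F) = if l = i then coeff 0 F else 0 := by
  split_ifs with h
  · subst h
    have := coeff_X_mul (0 : Fin n →₀ ℕ) l F
    rwa [add_zero] at this
  · rw [coeff_X_mul', if_neg]
    rw [Finsupp.mem_support_iff, Finsupp.single_eq_of_ne h]
    simp

theorem coeff_XF_two (F : MvPolynomial (Fin n) k) (l i j : Fin n) :
    coeff (s1 i + s1 j) (X l * F) =
      if l = i then coeff (s1 j) F else if l = j then coeff (s1 i) F else 0 := by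
  split_ifs with h h'
  · subst h
    exact coeff_X_mul _ _ _
  · subst h'
    rw [add_comm]
    exact coeff_X_mul _ _ _
  · rw [coeff_X_mul', if_neg]
    rw [Finsupp.mem_support_iff, Finsupp.add_apply, Finsupp.single_eq_of_ne h,
      Finsupp.single_eq_of_ne h']
    simp

theorem coeff_CX_zero (a : k) (l : Fin n) : coeff 0 (C a * X l : MvPolynomial (Fin n) k) = 0 := by
  rw [coeff_C_mul, coeff_zero_X, mul_zero]

theorem coeff_CX_one (a : k) (l i : Fin n) :
    coeff (s1 i) (C a * X l : MvPolynomial (Fin n) k) = if l = i then a else 0 := by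
  rw [coeff_C_mul, coeff_X]
  split_ifs with h h' h'
  · rw [mul_one]
  · exact absurd (s1_inj h) h'
  · exact absurd (by rw [h']) h
  · rw [mul_zero]

end coeffs

section three

variable {k : Type u} [Field k]

theorem syz_one (F : Fin 3 → MvPolynomial (Fin 3) k)
    (h : X 0 * F 0 + X 1 * F 1 + X 2 * F 2 ∈ idealOfVars (Fin 3) k ^ 3) :
    ∃ a b c : k, F 0 - (-(C a * X 1) - C b * X 2) ∈ idealOfVars (Fin 3) k ^ 2 ∧
      F 1 - (C a * X 0 - C c * X 2) ∈ idealOfVars (Fin 3) k ^ 2 ∧
      F 2 - (C b * X 0 + C c * X 1) ∈ idealOfVars (Fin 3) k ^ 2 := by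
  have h1 := fun i => cub_one h i
  have h2 := fun i j => cub_two h i j
  simp only [coeff_add, coeff_XF_one] at h1
  simp only [coeff_add, coeff_XF_two] at h2
  have a0 := h1 0
  have a1 := h1 1
  have a2 := h1 2
  have b00 := h2 0 0
  have b01 := h2 0 1
  have b02 := h2 0 2
  have b11 := h2 1 1
  have b12 := h2 1 2
  have b22 := h2 2 2
  simp at a0 a1 a2 b00 b01 b02 b11 b12 b22
  refine ⟨coeff (s1 0) (F 1), coeff (s1 0) (F 2), coeff (s1 1) (F 2), ?_, ?_, ?_⟩
  · rw [mem_sq_iff]
    refine ⟨?_, fun i => ?_⟩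
    · simp [coeff_CX_zero, a0]
    · simp only [coeff_sub, coeff_neg, coeff_CX_one]
      fin_cases i
      · simp [b00]
      · simp
        linear_combination b01
      · simp
        linear_combination b02
  · rw [mem_sq_iff]
    refine ⟨?_, fun i => ?_⟩
    · simp [coeff_CX_zero, a1]
    · simp only [coeff_sub, coeff_neg, coeff_CX_one]
      fin_cases i
      · simp
      · simp [b11]
      · simp
        linear_combination b12
  · rw [mem_sq_iff]
    refine ⟨?_, fun i => ?_⟩
    · simp [coeff_CX_zero, a2]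
    · simp only [coeff_sub, coeff_add, coeff_CX_one]
      fin_cases i
      · simp
      · simp
      · simp [b22]

theorem syz_two (A B D : MvPolynomial (Fin 3) k)
    (h1 : X 0 * A - X 2 * D ∈ idealOfVars (Fin 3) k ^ 3)
    (h2 : X 0 * B + X 1 * D ∈ idealOfVars (Fin 3) k ^ 3) :
    ∃ t : k, A - C t * X 2 ∈ idealOfVars (Fin 3) k ^ 2 ∧
      B + C t * X 1 ∈ idealOfVars (Fin 3) k ^ 2 ∧
      D - C t * X 0 ∈ idealOfVars (Fin 3) k ^ 2 := by
  have a1 := fun i => cub_one h1 i
  have a2 := fun i j => cub_two h1 i j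
  have b1 := fun i => cub_one h2 i
  have b2 := fun i j => cub_two h2 i j
  simp only [coeff_sub, coeff_XF_one] at a1
  simp only [coeff_sub, coeff_XF_two] at a2
  simp only [coeff_add, coeff_XF_one] at b1
  simp only [coeff_add, coeff_XF_two] at b2
  have c1 := a1 0
  have c2 := a1 2
  have c3 := b1 0
  have d1 := a2 0 0
  have d2 := a2 0 1
  have d3 := a2 0 2
  have d4 := a2 2 2
  have d5 := a2 1 2
  have e1 := b2 0 0
  have e2 := b2 0 1
  have e3 := b2 0 2
  simp at c1 c2 c3 d1 d2 d3 d4 d5 e1 e2 e3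
  refine ⟨coeff (s1 0) D, ?_, ?_, ?_⟩
  · rw [mem_sq_iff]
    refine ⟨?_, fun i => ?_⟩
    · simp [coeff_CX_zero, c1]
    · simp only [coeff_sub, coeff_CX_one]
      fin_cases i
      · simp [d1]
      · simp [d2]
      · simp
        linear_combination d3
  · rw [mem_sq_iff]
    refine ⟨?_, fun i => ?_⟩
    · simp [coeff_CX_zero, c3]
    · simp only [coeff_add, coeff_CX_one]
      fin_cases i
      · simp [e1]
      · simp
        linear_combination e2
      · simp [e3]
  · rw [mem_sq_iff]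
    refine ⟨?_, fun i => ?_⟩
    · simp [coeff_CX_zero, c2]
    · simp only [coeff_sub, coeff_CX_one]
      fin_cases i
      · simp
      · simp [d5]
      · simp [d4]

theorem syz_three (A : MvPolynomial (Fin 3) k) (h : X 0 * A ∈ idealOfVars (Fin 3) k ^ 3) :
    A ∈ idealOfVars (Fin 3) k ^ 2 := by
  rw [mem_sq_iff]
  have a1 := cub_one h 0
  rw [coeff_XF_one, if_pos rfl] at a1
  refine ⟨a1, fun i => ?_⟩
  have a2 := cub_two h 0 i
  rwa [coeff_XF_two, if_pos rfl] at a2

end three

end Pool.Agent.V113.Gol
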