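import Mathlib

/-!
# Golod rings: definitions

The Koszul complex of a commutative ring `R` on elements `x_1, …, x_n` is the exterior algebra of
`R^n` with the antiderivation `e_i ↦ x_i`.
-/

set_option autoImplicit false

namespace Pool.Agent.V113.Gol

open CategoryTheory

universe u

/-- The exterior algebra of `R^n`. -/
abbrev KK (R : Type u) [CommRing R] (n : ℕ) : Type u := ExteriorAlgebra R (Fin n → R)

section

variable {R : Type u} [CommRing R] {n : ℕ} (x : Fin n → R)

/-- The Koszul differential: the antiderivation of the exterior algebra with `e_i ↦ x_i`. -/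
noncomputable def dd : KK R n →ₗ[R] KK R n :=
  CliffordAlgebra.contractLeft (Q := (0 : QuadraticForm R (Fin n → R)))
    (Fintype.linearCombination R x)

/-- `z` is a cycle of degree `i`. -/
def IsCycle (i : ℕ) (z : KK R n) : Prop := z ∈ ⋀[R]^i (Fin n → R) ∧ dd x z = 0

/-- `z` and `z'` of degree `i` differ by a boundary. -/
def Homologous (i : ℕ) (z z' : KK R n) : Prop := ∃ w ∈ ⋀[R]^(i + 1) (Fin n → R), z = z' + dd x w

/-- The cycles `z b`, of degree `deg b ≥ 1`, represent a `k`-basis of the homology in positive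
degrees: every cycle of degree `i ≥ 1` is homologous to exactly one linear combination of those
of degree `i`. -/
def IsBasis (k : Type u) [Field k] [Algebra k R] {B : Type u} (deg : B → ℕ) (z : B → KK R n) :
    Prop :=
  (∀ b, 1 ≤ deg b ∧ IsCycle x (deg b) (z b)) ∧
    ∀ (i : ℕ) (y : KK R n), 1 ≤ i → IsCycle x i y →
      ∃! c : {b : B // deg b = i} →₀ k, Homologous x i y (c.sum fun b a => a • z b.1)

/-- The degree of `μ (b_1, …, b_p)`. -/
def mdeg {B : Type u} (deg : B → ℕ) (w : List B) : ℕ := (w.map deg).sum + w.length - 1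

/-- The equations of a trivial Massey operation:
`∂ μ (w) = ∑ (-1) ^ (1 + deg μ (u)) μ (u) μ (v)`, sum over `w = u v` with `u, v` nonempty. -/
def IsMassey {B : Type u} (deg : B → ℕ) (μ : List B → KK R n) : Prop :=
  ∀ w : List B, 2 ≤ w.length → μ w ∈ ⋀[R]^(mdeg deg w) (Fin n → R) ∧
    dd x (μ w) = ∑ j ∈ Finset.Ico 1 w.length,
      (-1 : KK R n) ^ (1 + mdeg deg (w.take j)) * (μ (w.take j) * μ (w.drop j))

/-- The Koszul complex of `R` on `x` has a trivial Massey operation. -/
def HasTrivialMassey (k : Type u) [Field k] [Algebra k R] : Prop :=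
  ∃ (B : Type u) (deg : B → ℕ) (μ : List B → KK R n),
    IsBasis x k deg (fun b => μ [b]) ∧ IsMassey x deg μ

/-- The depth of `R` with respect to the ideal `m`: the least `i` with `Ext^i_R(R/m, R) ≠ 0`. -/
noncomputable def depth (m : Ideal R) : ℕ∞ :=
  sInf {d : ℕ∞ | ∃ i : ℕ, d = (i : ℕ∞) ∧
    Nontrivial (Abelian.Ext (ModuleCat.of R (R ⧸ m)) (ModuleCat.of R R) i)}

/-- The type of `R` with respect to the ideal `m`: the length of `Ext^depth_R(R/m, R)`. -/
noncomputable def type (m : Ideal R) : ℕ∞ :=
  Module.length R (Abelian.Ext (ModuleCat.of R (R ⧸ m)) (ModuleCat.of R R) (depth m).toNat)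

end

section

variable {k : Type u} [Field k] {n : ℕ} (I : Ideal (MvPolynomial (Fin n) k))

/-- The ring `R = k[x_1, …, x_n] / I`. -/
abbrev Q : Type u := MvPolynomial (Fin n) k ⧸ I

/-- The ideal `(x_1, …, x_n)` of `R = k[x_1, …, x_n] / I`. -/
noncomputable def mm : Ideal (Q I) := Ideal.span (Set.range fun i => Ideal.Quotient.mk I (MvPolynomial.X i))

/-- `R = k[x_1, …, x_n] / I` is Golod: the Koszul complex on the variables has a trivial Massey
operation. -/
def IsGolod : Prop :=
  HasTrivialMassey (fun i => Ideal.Quotient.mk I (MvPolynomial.X i)) k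

end

end Pool.Agent.V113.Gol
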