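import Pool.Agent.V113.Gol.Kos

/-!
# The example: type two, height three
-/

set_option autoImplicit false

namespace Pool.Agent.V113.Gol

open MvPolynomial

universe u

section gen

variable {k : Type u} [Field k] {n : ℕ}

theorem mem_one_iff (F : MvPolynomial (Fin n) k) :
    F ∈ idealOfVars (Fin n) k ↔ coeff 0 F = 0 := by
  rw [← pow_one (idealOfVars (Fin n) k), mem_pow_idealOfVars_iff']
  constructor
  · intro h
    exact h 0 (by simp)
  · intro h0 d hd
    have : Finsupp.degree d = 0 := by omega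
    rw [Finsupp.degree_eq_zero_iff] at this
    rw [this]
    exact h0

theorem degree_lt_three {d : Fin n →₀ ℕ} (h : Finsupp.degree d < 3) :
    d = 0 ∨ (∃ i, d = s1 i) ∨ ∃ i j, d = s1 i + s1 j := by
  by_cases h0 : d = 0
  · exact Or.inl h0
  · right
    obtain ⟨i, hi⟩ := Finsupp.ne_iff.1 h0
    have hi' : 1 ≤ d i := Nat.one_le_iff_ne_zero.2 hi
    have h1 : s1 i ≤ d := Finsupp.single_le_iff.2 hi'
    obtain ⟨e, rfl⟩ := exists_add_of_le h1
    rw [map_add, degree_s1] at h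
    rcases degree_lt_two (d := e) (by omega) with rfl | ⟨j, rfl⟩
    · exact Or.inl ⟨i, by rw [add_zero]⟩
    · exact Or.inr ⟨i, j, rfl⟩

theorem mem_cub_iff (F : MvPolynomial (Fin n) k) :
    F ∈ idealOfVars (Fin n) k ^ 3 ↔ F ∈ idealOfVars (Fin n) k ^ 2 ∧
      ∀ i j, coeff (s1 i + s1 j) F = 0 := by
  constructor
  · intro h
    exact ⟨Ideal.pow_le_pow_right (by norm_num) h, fun i j => cub_two h i j⟩
  · rintro ⟨h1, h2⟩
    rw [mem_sq_iff] at h1
    rw [mem_pow_idealOfVars_iff']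
    intro d hd
    rcases degree_lt_three hd with rfl | ⟨i, rfl⟩ | ⟨i, j, rfl⟩
    · exact h1.1
    · exact h1.2 i
    · exact h2 i j

theorem coeff_XF_three (F : MvPolynomial (Fin n) k) (l i j m : Fin n) :
    coeff (s1 i + s1 j + s1 m) (X l * F) =
      if l = i then coeff (s1 j + s1 m) F else if l = j then coeff (s1 i + s1 m) F else
        if l = m then coeff (s1 i + s1 j) F else 0 := by
  split_ifs with h h' h''
  · subst h
    rw [add_assoc]
    exact coeff_X_mul _ _ _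
  · subst h'
    rw [add_comm (s1 i) (s1 l), add_assoc]
    exact coeff_X_mul _ _ _
  · subst h''
    rw [add_comm _ (s1 l)]
    exact coeff_X_mul _ _ _
  · rw [coeff_X_mul', if_neg]
    rw [Finsupp.mem_support_iff, Finsupp.add_apply, Finsupp.add_apply, Finsupp.single_eq_of_ne h,
      Finsupp.single_eq_of_ne h', Finsupp.single_eq_of_ne h'']
    simp

theorem degree_s3 (i j m : Fin n) : Finsupp.degree (s1 i + s1 j + s1 m) = 3 := by simp [s1]

end gen

section three

variable (k : Type u) [Field k]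

/-- The two linear forms on the cubics. -/
noncomputable def φ₁ (F : MvPolynomial (Fin 3) k) : k :=
  coeff (s1 0 + s1 0 + s1 0) F + coeff (s1 1 + s1 1 + s1 2) F

noncomputable def φ₂ (F : MvPolynomial (Fin 3) k) : k :=
  coeff (s1 0 + s1 2 + s1 2) F + coeff (s1 0 + s1 1 + s1 1) F

variable {k}

theorem φ₁_add (F G : MvPolynomial (Fin 3) k) : φ₁ k (F + G) = φ₁ k F + φ₁ k G := by
  simp only [φ₁, coeff_add]
  ring

theorem φ₂_add (F G : MvPolynomial (Fin 3) k) : φ₂ k (F + G) = φ₂ k F + φ₂ k G := by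
  simp only [φ₂, coeff_add]
  ring

theorem φ₁_C (a : k) (F : MvPolynomial (Fin 3) k) : φ₁ k (C a * F) = a * φ₁ k F := by
  simp only [φ₁, coeff_C_mul]
  ring

theorem φ₂_C (a : k) (F : MvPolynomial (Fin 3) k) : φ₂ k (C a * F) = a * φ₂ k F := by
  simp only [φ₂, coeff_C_mul]
  ring

theorem coeff_four {G : MvPolynomial (Fin 3) k} (h : G ∈ idealOfVars (Fin 3) k ^ 4)
    (i j m : Fin 3) : coeff (s1 i + s1 j + s1 m) G = 0 :=
  (mem_pow_idealOfVars_iff' _ _).1 h _ (by rw [degree_s3]; norm_num)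

theorem φ₁_four {G : MvPolynomial (Fin 3) k} (h : G ∈ idealOfVars (Fin 3) k ^ 4) :
    φ₁ k G = 0 := by
  rw [φ₁, coeff_four h, coeff_four h, add_zero]

theorem φ₂_four {G : MvPolynomial (Fin 3) k} (h : G ∈ idealOfVars (Fin 3) k ^ 4) :
    φ₂ k G = 0 := by
  rw [φ₂, coeff_four h, coeff_four h, add_zero]

theorem split_mul (c : MvPolynomial (Fin 3) k) {F : MvPolynomial (Fin 3) k}
    (hF : F ∈ idealOfVars (Fin 3) k ^ 3) :
    (c - C (coeff 0 c)) * F ∈ idealOfVars (Fin 3) k ^ 4 := by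
  rw [pow_succ']
  refine Ideal.mul_mem_mul ?_ hF
  rw [mem_one_iff, coeff_sub, coeff_zero_C, sub_self]

theorem φ₁_mul (c : MvPolynomial (Fin 3) k) {F : MvPolynomial (Fin 3) k}
    (hF : F ∈ idealOfVars (Fin 3) k ^ 3) : φ₁ k (c * F) = coeff 0 c * φ₁ k F := by
  have : c * F = C (coeff 0 c) * F + (c - C (coeff 0 c)) * F := by ring
  rw [this, φ₁_add, φ₁_C, φ₁_four (split_mul c hF), add_zero]

theorem φ₂_mul (c : MvPolynomial (Fin 3) k) {F : MvPolynomial (Fin 3) k}
    (hF : F ∈ idealOfVars (Fin 3) k ^ 3) : φ₂ k (c * F) = coeff 0 c * φ₂ k F := by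
  have : c * F = C (coeff 0 c) * F + (c - C (coeff 0 c)) * F := by ring
  rw [this, φ₂_add, φ₂_C, φ₂_four (split_mul c hF), add_zero]

variable (k)

/-- The ideal of the polynomials in `𝔪³` on which both forms vanish. -/
def I0 : Ideal (MvPolynomial (Fin 3) k) where
  carrier := {F | F ∈ idealOfVars (Fin 3) k ^ 3 ∧ φ₁ k F = 0 ∧ φ₂ k F = 0}
  add_mem' := by
    rintro F G ⟨h1, h2, h3⟩ ⟨g1, g2, g3⟩
    exact ⟨Ideal.add_mem _ h1 g1, by rw [φ₁_add, h2, g2, add_zero],
      by rw [φ₂_add, h3, g3, add_zero]⟩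
  zero_mem' := ⟨Ideal.zero_mem _, by simp [φ₁], by simp [φ₂]⟩
  smul_mem' := by
    rintro c F ⟨h1, h2, h3⟩
    rw [smul_eq_mul]
    exact ⟨Ideal.mul_mem_left _ _ h1, by rw [φ₁_mul c h1, h2, mul_zero],
      by rw [φ₂_mul c h1, h3, mul_zero]⟩

variable {k}

theorem mem_I0 {F : MvPolynomial (Fin 3) k} :
    F ∈ I0 k ↔ F ∈ idealOfVars (Fin 3) k ^ 3 ∧ φ₁ k F = 0 ∧ φ₂ k F = 0 := Iff.rfl

theorem I0_le : I0 k ≤ idealOfVars (Fin 3) k ^ 3 := fun _ h => h.1

theorem four_le : idealOfVars (Fin 3) k ^ 4 ≤ I0 k := fun _ h =>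
  ⟨Ideal.pow_le_pow_right (by norm_num) h, φ₁_four h, φ₂_four h⟩

theorem golod_I0 : IsGolod (I0 k) := golod_three _ I0_le four_le

theorem homog_I0 : ∀ F ∈ I0 k, ∀ i : ℕ, homogeneousComponent i F ∈ I0 k := by
  intro F hF i
  obtain ⟨g1, g2, g3⟩ := hF
  refine ⟨?_, ?_, ?_⟩
  · rw [mem_pow_idealOfVars_iff'] at g1 ⊢
    intro d hd
    rw [coeff_homogeneousComponent]
    split_ifs
    · exact g1 d hd
    · rfl
  · rw [φ₁, coeff_homogeneousComponent, coeff_homogeneousComponent, degree_s3, degree_s3]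
    split_ifs
    · exact g2
    · simp
  · rw [φ₂, coeff_homogeneousComponent, coeff_homogeneousComponent, degree_s3, degree_s3]
    split_ifs
    · exact g3
    · simp

/-- The monomials representing the socle. -/
noncomputable def M₁ : MvPolynomial (Fin 3) k := X 0 * (X 0 * X 0)

noncomputable def M₂ : MvPolynomial (Fin 3) k := X 0 * (X 2 * X 2)

theorem X_mem (i : Fin 3) : (X i : MvPolynomial (Fin 3) k) ∈ idealOfVars (Fin 3) k := by
  rw [mem_one_iff, coeff_zero_X]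

theorem M₁_mem : (M₁ : MvPolynomial (Fin 3) k) ∈ idealOfVars (Fin 3) k ^ 3 := by
  rw [M₁, pow_succ', pow_two]
  exact Ideal.mul_mem_mul (X_mem _) (Ideal.mul_mem_mul (X_mem _) (X_mem _))

theorem M₂_mem : (M₂ : MvPolynomial (Fin 3) k) ∈ idealOfVars (Fin 3) k ^ 3 := by
  rw [M₂, pow_succ', pow_two]
  exact Ideal.mul_mem_mul (X_mem _) (Ideal.mul_mem_mul (X_mem _) (X_mem _))

theorem coeff_X_one (l i : Fin 3) :
    coeff (s1 i) (X l : MvPolynomial (Fin 3) k) = if l = i then 1 else 0 := by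
  have := coeff_CX_one (1 : k) l i
  rwa [map_one, one_mul] at this

theorem φ_M₁ : φ₁ k M₁ = 1 ∧ φ₂ k M₁ = 0 := by
  simp [φ₁, φ₂, M₁, coeff_XF_three, coeff_XF_two]

theorem φ_M₂ : φ₁ k M₂ = 0 ∧ φ₂ k M₂ = 1 := by
  simp [φ₁, φ₂, M₂, coeff_XF_three, coeff_XF_two]

/-- the socle upstairs -/
theorem socle_iff (F : MvPolynomial (Fin 3) k) :
    (∀ i, X i * F ∈ I0 k) ↔ F ∈ idealOfVars (Fin 3) k ^ 3 := by
  constructor
  · intro h
    rw [mem_cub_iff]
    refine ⟨syz_three F (h 0).1, ?_⟩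
    have a0 := (h 0).2.1
    have a1 := (h 1).2.1
    have a2 := (h 2).2.1
    have b0 := (h 0).2.2
    have b1 := (h 1).2.2
    have b2 := (h 2).2.2
    simp only [φ₁, φ₂, coeff_XF_three] at a0 a1 a2 b0 b1 b2
    simp at a0 a1 a2 b0 b1 b2
    rw [a2, add_zero] at b0
    intro i j
    have hs : ∀ i j : Fin 3, coeff (s1 i + s1 j) F = coeff (s1 j + s1 i) F := fun i j => by
      rw [add_comm]
    fin_cases i <;> fin_cases j
    · exact a0
    · exact b1
    · exact b2
    · exact (hs _ _).trans b1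
    · exact a2
    · exact a1
    · exact (hs _ _).trans b2
    · exact (hs _ _).trans a1
    · exact b0
  · intro h i
    refine four_le ?_
    rw [pow_succ']
    exact Ideal.mul_mem_mul (X_mem i) h

end three

end Pool.Agent.V113.Gol
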