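import Pool.Agent.V113.Gol.Ex

/-!
# The example: type, depth, dimension and height
-/

set_option autoImplicit false

namespace Pool.Agent.V113.Gol

open MvPolynomial CategoryTheory

universe u

variable {k : Type u} [Field k]

/-- the residue map -/
noncomputable def σ : Q (I0 k) →+* k :=
  Ideal.Quotient.lift (I0 k) constantCoeff (fun F hF => by
    have h : F ∈ idealOfVars (Fin 3) k := by
      have := Ideal.pow_le_self (I := idealOfVars (Fin 3) k) (n := 3) (by norm_num)
      exact this (I0_le hF)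
    rw [mem_one_iff] at h
    exact h)

theorem σ_mk (F : MvPolynomial (Fin 3) k) : σ (Ideal.Quotient.mk (I0 k) F) = coeff 0 F := by
  rw [σ, Ideal.Quotient.lift_mk]
  rfl

theorem σ_surj : Function.Surjective (σ (k := k)) := by
  intro a
  refine ⟨Ideal.Quotient.mk _ (C a), ?_⟩
  rw [σ_mk, coeff_zero_C]

theorem mm_eq : mm (I0 k) = RingHom.ker (σ (k := k)) := by
  apply le_antisymm
  · rw [mm, Ideal.span_le]
    rintro _ ⟨i, rfl⟩
    change σ _ = 0
    rw [σ_mk, coeff_zero_X]
  · intro r hr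
    obtain ⟨F, rfl⟩ := Ideal.Quotient.mk_surjective r
    rw [RingHom.mem_ker, σ_mk, ← mem_one_iff] at hr
    have h : (idealOfVars (Fin 3) k).map (Ideal.Quotient.mk (I0 k)) = mm (I0 k) := by
      rw [idealOfVars, Ideal.map_span, mm]
      congr 1
      ext r
      simp
    rw [← h]
    exact Ideal.mem_map_of_mem _ hr

theorem mm_max : (mm (I0 k)).IsMaximal := by
  rw [mm_eq]
  exact RingHom.ker_isMaximal_of_surjective _ σ_surj

/-- elements of the socle -/
theorem mk_mul_eq {M : MvPolynomial (Fin 3) k} (hM : M ∈ idealOfVars (Fin 3) k ^ 3)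
    (F : MvPolynomial (Fin 3) k) (a : k) :
    Ideal.Quotient.mk (I0 k) F * Ideal.Quotient.mk (I0 k) (C a * M) =
      Ideal.Quotient.mk (I0 k) (C (coeff 0 F * a) * M) := by
  rw [← map_mul, ← sub_eq_zero, ← map_sub, Ideal.Quotient.eq_zero_iff_mem]
  refine four_le ?_
  have h := split_mul F (Ideal.mul_mem_left _ (C a) hM)
  have h2 : F * (C a * M) - C (coeff 0 F * a) * M = (F - C (coeff 0 F)) * (C a * M) := by
    rw [C_mul]
    ring
  rw [h2]
  exact h

/-- the element with coordinates `(a, b)` -/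
noncomputable def g (t : k × k) : Q (I0 k) := Ideal.Quotient.mk (I0 k) (C t.1 * M₁ + C t.2 * M₂)

theorem g_add (s t : k × k) : g (s + t) = g s + g t := by
  rw [g, g, g, ← map_add]
  congr 1
  rw [Prod.fst_add, Prod.snd_add, C_add, C_add]
  ring

theorem g_smul (r : Q (I0 k)) (t : k × k) : r * g t = g (σ r • t) := by
  obtain ⟨F, rfl⟩ := Ideal.Quotient.mk_surjective r
  rw [g, g, map_add, mul_add, mk_mul_eq M₁_mem, mk_mul_eq M₂_mem, ← map_add, σ_mk]
  rfl

theorem g_inj : Function.Injective (g (k := k)) := by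
  intro s t h
  rw [g, g, Ideal.Quotient.eq] at h
  obtain ⟨-, h1, h2⟩ := h
  have e : C s.1 * M₁ + C s.2 * M₂ - (C t.1 * M₁ + C t.2 * M₂) =
      C (s.1 - t.1) * M₁ + C (s.2 - t.2) * M₂ := by
    rw [C_sub, C_sub]
    ring
  rw [e, φ₁_add, φ₁_C, φ₁_C, φ_M₁.1, φ_M₂.1] at h1
  rw [e, φ₂_add, φ₂_C, φ₂_C, φ_M₁.2, φ_M₂.2] at h2
  refine Prod.ext ?_ ?_
  · linear_combination h1
  · linear_combination h2

theorem socle_eq (r : Q (I0 k)) : (∀ a ∈ mm (I0 k), a * r = 0) ↔ ∃ t, g t = r := by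
  constructor
  · intro h
    obtain ⟨F, rfl⟩ := Ideal.Quotient.mk_surjective r
    have h1 : ∀ i, X i * F ∈ I0 k := by
      intro i
      rw [← Ideal.Quotient.eq_zero_iff_mem, map_mul]
      exact h _ (Ideal.subset_span ⟨i, rfl⟩)
    rw [socle_iff] at h1
    refine ⟨(φ₁ k F, φ₂ k F), ?_⟩
    rw [g, Ideal.Quotient.eq]
    refine ⟨?_, ?_, ?_⟩
    · exact Ideal.sub_mem _ (Ideal.add_mem _ (Ideal.mul_mem_left _ _ M₁_mem)
        (Ideal.mul_mem_left _ _ M₂_mem)) h1
    · rw [sub_eq_add_neg, ← neg_one_mul F, ← C_1, ← C_neg, φ₁_add, φ₁_add, φ₁_C, φ₁_C, φ₁_C,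
        φ_M₁.1, φ_M₂.1]
      ring
    · rw [sub_eq_add_neg, ← neg_one_mul F, ← C_1, ← C_neg, φ₂_add, φ₂_add, φ₂_C, φ₂_C, φ₂_C,
        φ_M₁.2, φ_M₂.2]
      ring
  · rintro ⟨t, rfl⟩ a ha
    rw [g_smul]
    rw [mm_eq, RingHom.mem_ker] at ha
    rw [ha, zero_smul, g, Prod.fst_zero, Prod.snd_zero, C_0, zero_mul, zero_mul, add_zero,
      map_zero]

/-- The homomorphism `R / 𝔪 → R` with `1 ↦ g t`. -/
noncomputable def hom (t : k × k) : (Q (I0 k) ⧸ mm (I0 k)) →ₗ[Q (I0 k)] Q (I0 k) :=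
  Submodule.liftQ (mm (I0 k)) (LinearMap.toSpanSingleton (Q (I0 k)) (Q (I0 k)) (g t)) (by
    intro a ha
    rw [LinearMap.mem_ker, LinearMap.toSpanSingleton_apply, smul_eq_mul]
    exact (socle_eq (g t)).2 ⟨t, rfl⟩ a ha)

theorem hom_mk (t : k × k) (r : Q (I0 k)) : hom t (Ideal.Quotient.mk (mm (I0 k)) r) = r * g t := by
  change hom t (Submodule.Quotient.mk r) = _
  rw [hom, Submodule.liftQ_apply, LinearMap.toSpanSingleton_apply, smul_eq_mul]

theorem hom_bij : Function.Bijective (hom (k := k)) := by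
  constructor
  · intro s t h
    apply g_inj
    have := LinearMap.congr_fun h (Ideal.Quotient.mk (mm (I0 k)) 1)
    rwa [hom_mk, hom_mk, one_mul, one_mul] at this
  · intro f
    have h1 : ∀ a ∈ mm (I0 k), a * f (Ideal.Quotient.mk (mm (I0 k)) 1) = 0 := by
      intro a ha
      rw [← smul_eq_mul, ← map_smul]
      have : a • (Ideal.Quotient.mk (mm (I0 k)) 1) = 0 := by
        change Ideal.Quotient.mk (mm (I0 k)) (a * 1) = 0
        rw [mul_one, Ideal.Quotient.eq_zero_iff_mem.2 ha]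
      rw [this, map_zero]
    obtain ⟨t, ht⟩ := (socle_eq _).1 h1
    refine ⟨t, ?_⟩
    refine LinearMap.ext fun y => ?_
    obtain ⟨r, rfl⟩ := Ideal.Quotient.mk_surjective y
    rw [hom_mk, ht, ← smul_eq_mul, ← map_smul]
    congr 1
    change Ideal.Quotient.mk (mm (I0 k)) (r * 1) = _
    rw [mul_one]

/-- The semilinear bijection between `Hom(R / 𝔪, R)` and `k²`. -/
noncomputable def semi : ((Q (I0 k) ⧸ mm (I0 k)) →ₗ[Q (I0 k)] Q (I0 k)) →ₛₗ[σ (k := k)] (k × k) where
  toFun := (Equiv.ofBijective _ (hom_bij (k := k))).symm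
  map_add' := by
    intro a b
    rw [Equiv.symm_apply_eq]
    obtain ⟨s, rfl⟩ := hom_bij.2 a
    obtain ⟨t, rfl⟩ := hom_bij.2 b
    rw [Equiv.ofBijective_symm_apply_apply, Equiv.ofBijective_symm_apply_apply,
      Equiv.ofBijective_apply]
    refine LinearMap.ext fun y => ?_
    obtain ⟨r, rfl⟩ := Ideal.Quotient.mk_surjective y
    rw [LinearMap.add_apply, hom_mk, hom_mk, hom_mk, g_add, mul_add]
  map_smul' := by
    intro c a
    rw [Equiv.symm_apply_eq]
    obtain ⟨s, rfl⟩ := hom_bij.2 a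
    rw [Equiv.ofBijective_symm_apply_apply, Equiv.ofBijective_apply]
    refine LinearMap.ext fun y => ?_
    obtain ⟨r, rfl⟩ := Ideal.Quotient.mk_surjective y
    rw [LinearMap.smul_apply, hom_mk, hom_mk, ← g_smul, smul_eq_mul]
    ring

theorem length_hom : Module.length (Q (I0 k)) ((Q (I0 k) ⧸ mm (I0 k)) →ₗ[Q (I0 k)] Q (I0 k)) = 2 := by
  have hs : RingHomSurjective (σ (k := k)) := ⟨σ_surj⟩
  have h1 : Module.length (Q (I0 k)) ((Q (I0 k) ⧸ mm (I0 k)) →ₗ[Q (I0 k)] Q (I0 k)) =
      Module.length k (k × k) := by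
    rw [Module.length, Module.length, WithBot.unbot_inj,
      Order.krullDim_eq_of_orderIso (Submodule.orderIsoMapComapOfBijective (semi (k := k))
        (Equiv.bijective _))]
  rw [h1, Module.length_prod, Module.length_eq_one, one_add_one_eq_two]

theorem depth_eq : depth (mm (I0 k)) = 0 := by
  refine le_antisymm (sInf_le ⟨0, rfl, ?_⟩) bot_le
  have h : Nontrivial ((Q (I0 k) ⧸ mm (I0 k)) →ₗ[Q (I0 k)] Q (I0 k)) := by
    rw [← Module.length_pos_iff (R := Q (I0 k)), length_hom]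
    norm_num
  have e : (ModuleCat.of (Q (I0 k)) (Q (I0 k) ⧸ mm (I0 k)) ⟶ ModuleCat.of (Q (I0 k)) (Q (I0 k))) ≃
      ((Q (I0 k) ⧸ mm (I0 k)) →ₗ[Q (I0 k)] Q (I0 k)) := ModuleCat.homEquiv
  exact (Abelian.Ext.addEquiv₀.toEquiv.trans e).nontrivial

theorem type_eq : type (mm (I0 k)) = 2 := by
  rw [type, depth_eq]
  change Module.length (Q (I0 k)) (Abelian.Ext (ModuleCat.of (Q (I0 k)) (Q (I0 k) ⧸ mm (I0 k)))
    (ModuleCat.of (Q (I0 k)) (Q (I0 k))) 0) = 2
  rw [LinearEquiv.length_eq (Abelian.Ext.linearEquiv₀ (R := Q (I0 k))),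
    LinearEquiv.length_eq (ModuleCat.homLinearEquiv (S := Q (I0 k)))]
  exact length_hom

theorem prime_of {J : Ideal (MvPolynomial (Fin 3) k)} (hJ : J.IsPrime) (h : I0 k ≤ J) :
    J = idealOfVars (Fin 3) k := by
  have h1 : idealOfVars (Fin 3) k ≤ J := hJ.le_of_pow_le (four_le.trans h)
  have h2 : idealOfVars (Fin 3) k = RingHom.ker (constantCoeff (R := k) (σ := Fin 3)) := by
    ext F
    rw [mem_one_iff]
    rfl
  have h3 : (idealOfVars (Fin 3) k).IsMaximal := by
    rw [h2]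
    exact RingHom.ker_isMaximal_of_surjective _ (fun a => ⟨C a, constantCoeff_C _ a⟩)
  exact (h3.eq_of_le hJ.ne_top h1).symm

theorem dim_eq : ringKrullDim (Q (I0 k)) = 0 := by
  have hnt : Nontrivial (Q (I0 k)) := (σ (k := k)).domain_nontrivial
  have h1 : Ring.KrullDimLE 0 (Q (I0 k)) := by
    refine Ring.KrullDimLE.mk₀ fun J hJ => ?_
    have h2 := prime_of (J := J.comap (Ideal.Quotient.mk (I0 k))) (hJ.comap _) (by
      intro F hF
      rw [Ideal.mem_comap, Ideal.Quotient.eq_zero_iff_mem.2 hF]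
      exact J.zero_mem)
    have h3 : mm (I0 k) ≤ J := by
      rw [mm, Ideal.span_le]
      rintro _ ⟨i, rfl⟩
      have : (X i : MvPolynomial (Fin 3) k) ∈ J.comap (Ideal.Quotient.mk (I0 k)) := by
        rw [h2]
        exact X_mem i
      exact this
    rw [← mm_max.eq_of_le hJ.ne_top h3]
    exact mm_max
  exact ringKrullDimZero_iff_ringKrullDim_eq_zero.1 h1

/-- evaluation killing the first `j` variables -/
noncomputable def ev (j : ℕ) : MvPolynomial (Fin 3) k →+* MvPolynomial (Fin 3) k :=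
  (aeval (fun i : Fin 3 => if i.1 < j then (0 : MvPolynomial (Fin 3) k) else X i)).toRingHom

theorem ev_X (j : ℕ) (i : Fin 3) :
    ev j (X i : MvPolynomial (Fin 3) k) = if i.1 < j then 0 else X i := by
  change aeval _ (X i) = _
  rw [aeval_X]

theorem ev_comp {j j' : ℕ} (h : j ≤ j') (F : MvPolynomial (Fin 3) k) :
    ev j' (ev j F) = ev j' F := by
  have : (ev j' : MvPolynomial (Fin 3) k →+* _).comp (ev j) = ev j' := by
    refine MvPolynomial.ringHom_ext (fun r => ?_) (fun i => ?_)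
    · change ev j' (ev j (C r)) = ev j' (C r)
      have h1 : ∀ j, ev j (C r : MvPolynomial (Fin 3) k) = C r := fun j => by
        change aeval _ (C r) = _
        rw [aeval_C]
        rfl
      rw [h1, h1]
    · change ev j' (ev j (X i)) = ev j' (X i)
      rw [ev_X, ev_X]
      split_ifs with h1 h2 h2
      · rw [map_zero]
      · omega
      · rw [ev_X, if_pos h2]
      · rw [ev_X, if_neg h2]
  exact RingHom.congr_fun this F

theorem ker_lt (i : Fin 3) :
    RingHom.ker (ev (k := k) i.1) < RingHom.ker (ev (k := k) (i.1 + 1)) := by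
  refine lt_of_le_of_ne ?_ ?_
  · intro F hF
    rw [RingHom.mem_ker] at hF ⊢
    rw [← ev_comp (Nat.le_succ _) F, hF, map_zero]
  · intro h
    have h1 : (X i : MvPolynomial (Fin 3) k) ∈ RingHom.ker (ev (k := k) (i.1 + 1)) := by
      rw [RingHom.mem_ker, ev_X, if_pos (Nat.lt_succ_self _)]
    rw [← h, RingHom.mem_ker, ev_X, if_neg (lt_irrefl _)] at h1
    exact X_ne_zero i h1

theorem three_le_height : 3 ≤ (idealOfVars (Fin 3) k).height := by
  have hp : ∀ j, (RingHom.ker (ev (k := k) j)).IsPrime := fun j => RingHom.ker_isPrime _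
  have h0 := hp 0
  have h1 := hp 1
  have h2 := hp 2
  have h3 := hp 3
  have a0 := Ideal.height_add_one_le_of_lt_of_isPrime (ker_lt (k := k) 0)
  have a1 := Ideal.height_add_one_le_of_lt_of_isPrime (ker_lt (k := k) 1)
  have a2 := Ideal.height_add_one_le_of_lt_of_isPrime (ker_lt (k := k) 2)
  have h4 : RingHom.ker (ev (k := k) 3) ≤ idealOfVars (Fin 3) k := by
    intro F hF
    rw [RingHom.mem_ker] at hF
    rw [mem_one_iff]
    have h5 : ∀ F : MvPolynomial (Fin 3) k, ev 3 F = C (coeff 0 F) := by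
      intro F
      have : (ev 3 : MvPolynomial (Fin 3) k →+* _) = (C.comp constantCoeff) := by
        refine MvPolynomial.ringHom_ext (fun r => ?_) (fun i => ?_)
        · change aeval _ (C r) = C (constantCoeff (C r))
          rw [aeval_C, constantCoeff_C]
          rfl
        · change ev 3 (X i) = C (constantCoeff (X i))
          rw [ev_X, if_pos i.2, constantCoeff_X, C_0]
      exact RingHom.congr_fun this F
    rw [h5] at hF
    exact C_injective _ _ (hF.trans C_0.symm)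
  have h6 := Ideal.height_mono h4
  change (RingHom.ker (ev (k := k) 0)).height + 1 ≤ (RingHom.ker (ev (k := k) 1)).height at a0
  change (RingHom.ker (ev (k := k) 1)).height + 1 ≤ (RingHom.ker (ev (k := k) 2)).height at a1
  change (RingHom.ker (ev (k := k) 2)).height + 1 ≤ (RingHom.ker (ev (k := k) 3)).height at a2
  have b0 : (1 : ℕ∞) ≤ (RingHom.ker (ev (k := k) 1)).height := le_trans le_add_self a0
  have b1 : (1 + 1 : ℕ∞) ≤ (RingHom.ker (ev (k := k) 2)).height :=
    le_trans (add_le_add_left b0 1) a1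
  have b2 : (1 + 1 + 1 : ℕ∞) ≤ (RingHom.ker (ev (k := k) 3)).height :=
    le_trans (add_le_add_left b1 1) a2
  have : (3 : ℕ∞) = 1 + 1 + 1 := by norm_num
  rw [this]
  exact b2.trans h6

theorem height_eq : (I0 k).height = 3 := by
  apply le_antisymm
  · have h1 : I0 k ≤ idealOfVars (Fin 3) k :=
      I0_le.trans (Ideal.pow_le_self (by norm_num))
    have hne : I0 k ≠ ⊤ := by
      intro h
      have : (1 : MvPolynomial (Fin 3) k) ∈ idealOfVars (Fin 3) k := h1 (by rw [h]; trivial)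
      rw [mem_one_iff, ← C_1, coeff_zero_C] at this
      exact one_ne_zero this
    have h2 := Ideal.height_le_ringKrullDim_of_ne_top hne
    rw [MvPolynomial.ringKrullDim_of_isNoetherianRing, ringKrullDim_eq_zero_of_field] at h2
    simp at h2
    have h3 : ((I0 k).height : WithBot ℕ∞) ≤ ((3 : ℕ∞) : WithBot ℕ∞) := h2
    exact WithBot.coe_le_coe.1 h3
  · rw [Ideal.height_eq_inf_minimalPrimes]
    refine le_iInf₂ fun J hJ => ?_
    have hJp := hJ.1.1
    rw [prime_of hJp hJ.1.2]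
    exact three_le_height

end Pool.Agent.V113.Gol
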