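import Pool.Agent.V113.Gol.Defs

/-!
# The Koszul complex on three elements, as an exterior algebra
-/

set_option autoImplicit false

namespace Pool.Agent.V113.Gol.Gen

universe u

section general

variable {R : Type u} [CommRing R] {n : ℕ} (x : Fin n → R)

theorem dd_one_mul (v : Fin n → R) (b : KK R n) :
    dd x (ExteriorAlgebra.ι R v * b) =
      Fintype.linearCombination R x v • b - ExteriorAlgebra.ι R v * dd x b :=
  CliffordAlgebra.contractLeft_ι_mul _ _ _

theorem dd_ι (v : Fin n → R) :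
    dd x (ExteriorAlgebra.ι R v) = algebraMap R (KK R n) (Fintype.linearCombination R x v) :=
  CliffordAlgebra.contractLeft_ι _ _ _

theorem dd_mem (i : ℕ) : ∀ w ∈ (⋀[R]^(i + 1) (Fin n → R)), dd x w ∈ (⋀[R]^i (Fin n → R)) := by
  induction i with
  | zero =>
    intro w hw
    rw [ExteriorAlgebra.exteriorPower, zero_add, pow_one] at hw
    obtain ⟨v, rfl⟩ := hw
    rw [dd_ι, ExteriorAlgebra.exteriorPower, pow_zero]
    exact Submodule.algebraMap_mem _
  | succ i ih =>
    intro w hw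
    rw [ExteriorAlgebra.exteriorPower, pow_succ'] at hw
    refine Submodule.mul_induction_on hw ?_ ?_
    · rintro _ ⟨v, rfl⟩ b hb
      rw [dd_one_mul]
      refine Submodule.sub_mem _ (Submodule.smul_mem _ _ hb) ?_
      have := Submodule.mul_mem_mul (LinearMap.mem_range_self (ExteriorAlgebra.ι R) v)
        (ih b hb)
      rw [ExteriorAlgebra.exteriorPower, pow_succ']
      exact this
    · intro a b ha hb
      rw [map_add]
      exact Submodule.add_mem _ ha hb

theorem J_mul (m : Ideal R) (h4 : m * m = ⊥) :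
    ∀ x ∈ m • (⊤ : Submodule R (KK R n)), ∀ y ∈ m • (⊤ : Submodule R (KK R n)), x * y = 0 := by
  intro x hx y hy
  refine Submodule.smul_induction_on hx ?_ ?_
  · intro r hr a _
    refine Submodule.smul_induction_on hy ?_ ?_
    · intro s hs b _
      have h5 : r * s ∈ m * m := Ideal.mul_mem_mul hr hs
      rw [h4, Ideal.mem_bot] at h5
      rw [smul_mul_smul_comm, h5, zero_smul]
    · intro b c hb hc
      rw [mul_add, hb, hc, add_zero]
  · intro a b ha hb
    rw [add_mul, ha, hb, add_zero]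

end general

section three

variable {R : Type u} [CommRing R] (x : Fin 3 → R)

variable (R) in
/-- The basis vectors. -/
noncomputable def e (i : Fin 3) : KK R 3 := ExteriorAlgebra.ι R (Pi.single i 1)

theorem ι_eq (v : Fin 3 → R) :
    ExteriorAlgebra.ι R v = v 0 • e R 0 + v 1 • e R 1 + v 2 • e R 2 := by
  have : v = v 0 • Pi.single 0 1 + v 1 • Pi.single 1 1 + v 2 • Pi.single 2 1 := by
    ext i
    fin_cases i <;> simp
  conv_lhs => rw [this]
  rw [map_add, map_add, map_smul, map_smul, map_smul]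
  rfl

theorem form_single (i : Fin 3) : Fintype.linearCombination R x (Pi.single i 1) = x i := by
  rw [Fintype.linearCombination_apply_single, one_smul]

theorem form_eq (v : Fin 3 → R) :
    Fintype.linearCombination R x v = v 0 * x 0 + v 1 * x 1 + v 2 * x 2 := by
  rw [Fintype.linearCombination_apply, Fin.sum_univ_three]
  rfl

theorem e_sq (i : Fin 3) : e R i * e R i = 0 := ExteriorAlgebra.ι_sq_zero _

theorem e_swap (i j : Fin 3) : e R i * e R j = - (e R j * e R i) := by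
  have := ExteriorAlgebra.ι_add_mul_swap (R := R) (Pi.single i 1 : Fin 3 → R) (Pi.single j 1)
  exact eq_neg_of_add_eq_zero_left this

theorem dd_e_mul (i : Fin 3) (b : KK R 3) : dd x (e R i * b) = x i • b - e R i * dd x b := by
  rw [e, dd_one_mul, form_single]

theorem dd_e (i : Fin 3) : dd x (e R i) = x i • 1 := by
  rw [e, dd_ι, form_single, Algebra.algebraMap_eq_smul_one]

theorem dd_e2 (i j : Fin 3) : dd x (e R i * e R j) = x i • e R j - x j • e R i := by
  rw [dd_e_mul, dd_e, mul_smul_comm, mul_one]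

theorem dd_e3 : dd x (e R 0 * (e R 1 * e R 2)) = x 0 • (e R 1 * e R 2) -
    x 1 • (e R 0 * e R 2) + x 2 • (e R 0 * e R 1) := by
  rw [dd_e_mul, dd_e2, mul_sub, mul_smul_comm, mul_smul_comm]
  abel

theorem mem_two {z : KK R 3} (hz : z ∈ (⋀[R]^2 (Fin 3 → R))) : ∃ a b c : R,
    z = a • (e R 0 * e R 1) + b • (e R 0 * e R 2) + c • (e R 1 * e R 2) := by
  rw [ExteriorAlgebra.exteriorPower, pow_two] at hz
  refine Submodule.mul_induction_on hz ?_ ?_
  · rintro _ ⟨v, rfl⟩ _ ⟨w, rfl⟩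
    refine ⟨v 0 * w 1 - v 1 * w 0, v 0 * w 2 - v 2 * w 0, v 1 * w 2 - v 2 * w 1, ?_⟩
    rw [ι_eq, ι_eq]
    simp only [mul_add, add_mul, smul_mul_smul_comm, e_sq, smul_zero, sub_smul,
      e_swap 1 0, e_swap 2 0, e_swap 2 1, smul_neg]
    abel
  · rintro _ _ ⟨a, b, c, rfl⟩ ⟨a', b', c', rfl⟩
    refine ⟨a + a', b + b', c + c', ?_⟩
    simp only [add_smul]
    abel

theorem mem_three {z : KK R 3} (hz : z ∈ (⋀[R]^3 (Fin 3 → R))) : ∃ a : R,
    z = a • (e R 0 * (e R 1 * e R 2)) := by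
  rw [ExteriorAlgebra.exteriorPower, pow_succ'] at hz
  refine Submodule.mul_induction_on hz ?_ ?_
  · rintro _ ⟨v, rfl⟩ w hw
    obtain ⟨a, b, c, rfl⟩ := mem_two hw
    refine ⟨v 0 * c - v 1 * b + v 2 * a, ?_⟩
    have h1 : e R 1 * (e R 0 * e R 2) = - (e R 0 * (e R 1 * e R 2)) := by
      rw [← mul_assoc, e_swap 1 0, neg_mul, mul_assoc]
    have h2 : e R 2 * (e R 0 * e R 1) = e R 0 * (e R 1 * e R 2) := by
      rw [← mul_assoc, e_swap 2 0, neg_mul, mul_assoc, e_swap 2 1, mul_neg, neg_neg]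
    have h3 : ∀ i j : Fin 3, e R i * (e R i * e R j) = 0 := fun i j => by
      rw [← mul_assoc, e_sq, zero_mul]
    have h4 : e R 1 * (e R 0 * e R 1) = 0 := by
      rw [e_swap 0 1, mul_neg, h3, neg_zero]
    have h5 : e R 2 * (e R 0 * e R 2) = 0 := by
      rw [e_swap 0 2, mul_neg, h3, neg_zero]
    have h6 : e R 2 * (e R 1 * e R 2) = 0 := by
      rw [e_swap 1 2, mul_neg, h3, neg_zero]
    rw [ι_eq]
    simp only [mul_add, add_mul, smul_mul_smul_comm, h1, h2, h3, h4, h5, h6, smul_zero, sub_smul,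
      add_smul, smul_neg]
    abel
  · rintro _ _ ⟨a, rfl⟩ ⟨a', rfl⟩
    exact ⟨a + a', by rw [add_smul]⟩

theorem mem_four {i : ℕ} {z : KK R 3} (hz : z ∈ (⋀[R]^(i + 4) (Fin 3 → R))) : z = 0 := by
  induction i generalizing z with
  | zero =>
    rw [ExteriorAlgebra.exteriorPower, zero_add, pow_succ'] at hz
    refine Submodule.mul_induction_on hz ?_ ?_
    · rintro _ ⟨v, rfl⟩ w hw
      obtain ⟨a, rfl⟩ := mem_three hw
      have h3 : e R 0 * (e R 0 * (e R 1 * e R 2)) = 0 := by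
        rw [← mul_assoc, e_sq, zero_mul]
      have h4 : e R 1 * (e R 0 * (e R 1 * e R 2)) = 0 := by
        rw [← mul_assoc, e_swap 1 0, neg_mul, mul_assoc, ← mul_assoc (e R 1) (e R 1), e_sq,
          zero_mul, mul_zero, neg_zero]
      have h5 : e R 2 * (e R 0 * (e R 1 * e R 2)) = 0 := by
        rw [← mul_assoc, e_swap 2 0, neg_mul, mul_assoc, e_swap 1 2, mul_neg,
          ← mul_assoc (e R 2) (e R 2), e_sq, zero_mul, neg_zero, mul_zero, neg_zero]
      rw [ι_eq]
      simp only [add_mul, smul_mul_smul_comm, h3, h4, h5, smul_zero, add_zero]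
    · rintro _ _ rfl rfl
      rw [add_zero]
  | succ i ih =>
    rw [ExteriorAlgebra.exteriorPower, show i + 1 + 4 = (i + 4) + 1 by ring, pow_succ'] at hz
    refine Submodule.mul_induction_on hz ?_ ?_
    · rintro _ ⟨v, rfl⟩ w hw
      rw [ih hw, mul_zero]
    · rintro _ _ rfl rfl
      rw [add_zero]

theorem ι_zero_of {v : Fin 3 → R} (h : ExteriorAlgebra.ι R v = 0) : v = 0 :=
  (ExteriorAlgebra.ι_eq_zero_iff v).1 h

theorem e_indep (a b c : R) (h : a • e R 0 + b • e R 1 + c • e R 2 = 0) :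
    a = 0 ∧ b = 0 ∧ c = 0 := by
  have := ι_eq ![a, b, c]
  simp only [Matrix.cons_val_zero, Matrix.cons_val_one, Matrix.cons_val] at this
  rw [h] at this
  have h2 := ι_zero_of this
  exact ⟨congrFun h2 0, congrFun h2 1, congrFun h2 2⟩

theorem cycles (m : Ideal R)
    (H1 : ∀ v0 v1 v2 : R, v0 * x 0 + v1 * x 1 + v2 * x 2 = 0 → ∃ a b c : R,
      v0 - (-(a * x 1) - b * x 2) ∈ m ∧ v1 - (a * x 0 - c * x 2) ∈ m ∧
      v2 - (b * x 0 + c * x 1) ∈ m)
    (H2 : ∀ a b c : R, a * x 0 - c * x 2 = 0 → b * x 0 + c * x 1 = 0 → ∃ t : R,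
      a - t * x 2 ∈ m ∧ b + t * x 1 ∈ m ∧ c - t * x 0 ∈ m)
    (H3 : ∀ a : R, a * x 0 = 0 → a ∈ m) (i : ℕ) (hi : 1 ≤ i) (z : KK R 3)
    (hz : z ∈ (⋀[R]^i (Fin 3 → R))) (hdz : dd x z = 0) :
    ∃ w ∈ (⋀[R]^(i + 1) (Fin 3 → R)), z - dd x w ∈ m • (⊤ : Submodule R (KK R 3)) := by
  have hJ : ∀ {r : R}, r ∈ m → ∀ y : KK R 3, r • y ∈ m • (⊤ : Submodule R (KK R 3)) :=
    fun hr y => Submodule.smul_mem_smul hr trivial
  match i, hi, hz with
  | 1, _, hz =>
    rw [ExteriorAlgebra.exteriorPower, pow_one] at hz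
    obtain ⟨v, rfl⟩ := hz
    rw [dd_ι] at hdz
    have h5 : Fintype.linearCombination R x v = 0 :=
      (ExteriorAlgebra.algebraMap_eq_zero_iff _ _).1 hdz
    rw [form_eq] at h5
    obtain ⟨a, b, c, g0, g1, g2⟩ := H1 _ _ _ h5
    refine ⟨a • (e R 0 * e R 1) + b • (e R 0 * e R 2) + c • (e R 1 * e R 2), ?_, ?_⟩
    · have hh : ∀ i j : Fin 3, e R i * e R j ∈ (⋀[R]^(1 + 1) (Fin 3 → R)) := fun i j => by
        rw [ExteriorAlgebra.exteriorPower, pow_two]
        exact Submodule.mul_mem_mul ⟨_, rfl⟩ ⟨_, rfl⟩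
      exact Submodule.add_mem _ (Submodule.add_mem _ (Submodule.smul_mem _ _ (hh _ _))
        (Submodule.smul_mem _ _ (hh _ _))) (Submodule.smul_mem _ _ (hh _ _))
    · rw [ι_eq, map_add, map_add, map_smul, map_smul, map_smul, dd_e2, dd_e2, dd_e2]
      have hfin := Submodule.add_mem _ (Submodule.add_mem _ (hJ g0 (e R 0))
        (hJ g1 (e R 1))) (hJ g2 (e R 2))
      refine (congrArg (· ∈ m • (⊤ : Submodule R (KK R 3))) ?_).mp hfin
      module
  | 2, _, hz =>
    obtain ⟨a, b, c, rfl⟩ := mem_two hz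
    rw [map_add, map_add, map_smul, map_smul, map_smul, dd_e2, dd_e2, dd_e2] at hdz
    have h5 : (-(a * x 1) - b * x 2) • e R 0 + (a * x 0 - c * x 2) • e R 1 +
        (b * x 0 + c * x 1) • e R 2 = 0 := by
      rw [← hdz]
      module
    obtain ⟨-, k1, k2⟩ := e_indep _ _ _ h5
    obtain ⟨t, g0, g1, g2⟩ := H2 a b c k1 k2
    refine ⟨t • (e R 0 * (e R 1 * e R 2)), ?_, ?_⟩
    · refine Submodule.smul_mem _ _ ?_
      rw [ExteriorAlgebra.exteriorPower, show 2 + 1 = 3 from rfl, pow_succ', pow_two]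
      exact Submodule.mul_mem_mul ⟨_, rfl⟩ (Submodule.mul_mem_mul ⟨_, rfl⟩ ⟨_, rfl⟩)
    · rw [map_smul, dd_e3]
      have hfin := Submodule.add_mem _ (Submodule.add_mem _ (hJ g0 (e R 0 * e R 1))
        (hJ g1 (e R 0 * e R 2))) (hJ g2 (e R 1 * e R 2))
      refine (congrArg (· ∈ m • (⊤ : Submodule R (KK R 3))) ?_).mp hfin
      module
  | 3, _, hz =>
    obtain ⟨a, rfl⟩ := mem_three hz
    refine ⟨0, Submodule.zero_mem _, ?_⟩
    rw [map_zero, sub_zero]
    rw [map_smul, dd_e3] at hdz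
    have hd : ∀ (d : Module.Dual R (Fin 3 → R)) (i j : Fin 3),
        CliffordAlgebra.contractLeft (Q := (0 : QuadraticForm R (Fin 3 → R))) d
          (e R i * e R j) = d (Pi.single i 1) • e R j - d (Pi.single j 1) • e R i := by
      intro d i j
      have h1 := CliffordAlgebra.contractLeft_ι_mul
        (Q := (0 : QuadraticForm R (Fin 3 → R))) d (Pi.single i 1) (e R j)
      have h2 := CliffordAlgebra.contractLeft_ι
        (Q := (0 : QuadraticForm R (Fin 3 → R))) d (Pi.single j 1)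
      refine h1.trans ?_
      change _ - e R i * _ = _
      rw [show CliffordAlgebra.contractLeft (Q := (0 : QuadraticForm R (Fin 3 → R))) d
        (e R j) = algebraMap _ _ (d (Pi.single j 1)) from h2, Algebra.algebraMap_eq_smul_one,
        mul_smul_comm, mul_one]
    have c1 := congrArg (CliffordAlgebra.contractLeft
      (Q := (0 : QuadraticForm R (Fin 3 → R))) (LinearMap.proj 1)) hdz
    rw [map_zero] at c1
    simp only [map_smul, map_add, map_sub, hd, LinearMap.proj_apply] at c1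
    simp at c1
    have c1' : (-(a * x 2)) • e R 0 + (0 : R) • e R 1 + (a * x 0) • e R 2 = 0 := by
      rw [← c1]
      module
    obtain ⟨-, -, m0⟩ := e_indep _ _ _ c1'
    exact hJ (H3 a m0) _
  | (i + 4), _, hz =>
    refine ⟨0, Submodule.zero_mem _, ?_⟩
    rw [mem_four hz, map_zero, sub_zero]
    exact Submodule.zero_mem _

end three

end Pool.Agent.V113.Gol.Gen
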