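import Pool.Agent.V113.Gol.Massey
import Pool.Agent.V113.Gol.Alg
import Pool.Agent.V113.Gol.Gen

/-!
# Golodness of ideals between the cube and the fourth power of the maximal ideal (three variables)
-/

set_option autoImplicit false

namespace Pool.Agent.V113.Gol

open MvPolynomial

universe u

variable {k : Type u} [Field k] {n : ℕ} (I : Ideal (MvPolynomial (Fin n) k))

/-- The maximal ideal of `R`. -/
noncomputable def mR : Ideal (Q I) := (idealOfVars (Fin n) k).map (Ideal.Quotient.mk I)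

theorem mk_mem_sq {F : MvPolynomial (Fin n) k} (h : F ∈ idealOfVars (Fin n) k ^ 2) :
    Ideal.Quotient.mk I F ∈ mR I ^ 2 := by
  rw [mR, ← Ideal.map_pow]
  exact Ideal.mem_map_of_mem _ h

theorem mR_four (hI : idealOfVars (Fin n) k ^ 4 ≤ I) : mR I ^ 2 * mR I ^ 2 = ⊥ := by
  rw [← pow_add, mR, ← Ideal.map_pow, Ideal.map_eq_bot_iff_le_ker, Ideal.mk_ker]
  exact hI

theorem golod_three (I : Ideal (MvPolynomial (Fin 3) k)) (h3 : I ≤ idealOfVars (Fin 3) k ^ 3)
    (h4 : idealOfVars (Fin 3) k ^ 4 ≤ I) : IsGolod I := by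
  refine golod_of k (fun i => Ideal.Quotient.mk I (X i)) ((mR I ^ 2) • ⊤)
    (Gen.J_mul (mR I ^ 2) (mR_four I h4)) (Gen.dd_mem fun i => Ideal.Quotient.mk I (X i)) ?_
  refine Gen.cycles (fun i => Ideal.Quotient.mk I (X i)) (mR I ^ 2) ?_ ?_ ?_
  · intro v0 v1 v2 h5
    obtain ⟨F0, rfl⟩ := Ideal.Quotient.mk_surjective v0
    obtain ⟨F1, rfl⟩ := Ideal.Quotient.mk_surjective v1
    obtain ⟨F2, rfl⟩ := Ideal.Quotient.mk_surjective v2
    have h6 : X 0 * F0 + X 1 * F1 + X 2 * F2 ∈ I := by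
      rw [← Ideal.Quotient.eq_zero_iff_mem, ← h5]
      simp only [map_add, map_mul]
      ring
    obtain ⟨a, b, c, g0, g1, g2⟩ := syz_one ![F0, F1, F2] (h3 h6)
    simp only [Matrix.cons_val_zero, Matrix.cons_val_one, Matrix.cons_val] at g0 g1 g2
    exact ⟨Ideal.Quotient.mk I (C a), Ideal.Quotient.mk I (C b), Ideal.Quotient.mk I (C c),
      mk_mem_sq I g0, mk_mem_sq I g1, mk_mem_sq I g2⟩
  · intro a b c k1 k2
    obtain ⟨A, rfl⟩ := Ideal.Quotient.mk_surjective a
    obtain ⟨B, rfl⟩ := Ideal.Quotient.mk_surjective b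
    obtain ⟨D, rfl⟩ := Ideal.Quotient.mk_surjective c
    have h6 : X 0 * A - X 2 * D ∈ I := by
      rw [← Ideal.Quotient.eq_zero_iff_mem, ← k1]
      simp only [map_sub, map_mul]
      ring
    have h7 : X 0 * B + X 1 * D ∈ I := by
      rw [← Ideal.Quotient.eq_zero_iff_mem, ← k2]
      simp only [map_add, map_mul]
      ring
    obtain ⟨t, g0, g1, g2⟩ := syz_two A B D (h3 h6) (h3 h7)
    exact ⟨Ideal.Quotient.mk I (C t), mk_mem_sq I g0, mk_mem_sq I g1, mk_mem_sq I g2⟩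
  · intro a m0
    obtain ⟨A, rfl⟩ := Ideal.Quotient.mk_surjective a
    have h6 : X 0 * A ∈ I := by
      rw [← Ideal.Quotient.eq_zero_iff_mem, ← m0]
      simp only [map_mul]
      ring
    exact mk_mem_sq I (syz_three A (h3 h6))

end Pool.Agent.V113.Gol
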