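import Pool.Agent.V113.Gol.Defs

/-!
# A criterion for the Golod property
-/

set_option autoImplicit false

namespace Pool.Agent.V113.Gol

universe u

variable (k : Type u) [Field k] {R : Type u} [CommRing R] [Algebra k R] {n : ℕ} (xs : Fin n → R)

/-- cycles of degree `i`, as a `k`-vector space -/
noncomputable def Z (i : ℕ) : Submodule k (KK R n) :=
  ((⋀[R]^i (Fin n → R)) ⊓ LinearMap.ker (dd xs)).restrictScalars k

/-- boundaries of degree `i` -/
noncomputable def Bd (i : ℕ) : Submodule k (Z k xs i) :=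
  (((⋀[R]^(i + 1) (Fin n → R)).map (dd xs)).restrictScalars k).comap (Z k xs i).subtype

theorem exists_rep (J : Submodule R (KK R n))
    (h : ∀ i : ℕ, 1 ≤ i → ∀ z ∈ (⋀[R]^i (Fin n → R)), dd xs z = 0 → ∃ w ∈ (⋀[R]^(i + 1) (Fin n → R)), z - dd xs w ∈ J)
    (hdd : ∀ i : ℕ, ∀ w ∈ (⋀[R]^(i + 1) (Fin n → R)), dd xs w ∈ (⋀[R]^i (Fin n → R)))
    (i : ℕ) (hi : 1 ≤ i) (v : Z k xs i ⧸ Bd k xs i) :
    ∃ z : Z k xs i, Submodule.Quotient.mk z = v ∧ (z : KK R n) ∈ J := by
  obtain ⟨z, rfl⟩ := Submodule.Quotient.mk_surjective _ v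
  obtain ⟨w, hw, hwJ⟩ := h i hi z z.2.1 z.2.2
  have h1 : dd xs (dd xs w) = 0 := CliffordAlgebra.contractLeft_contractLeft _ _
  have h2 : dd xs w ∈ Z k xs i := ⟨hdd i w hw, h1⟩
  refine ⟨z - ⟨dd xs w, h2⟩, ?_, hwJ⟩
  rw [Submodule.Quotient.mk_sub, sub_eq_self, Submodule.Quotient.mk_eq_zero]
  exact ⟨w, hw, rfl⟩

theorem golod_of (J : Submodule R (KK R n)) (hJ : ∀ x ∈ J, ∀ y ∈ J, x * y = 0)
    (hdd : ∀ i : ℕ, ∀ w ∈ (⋀[R]^(i + 1) (Fin n → R)), dd xs w ∈ (⋀[R]^i (Fin n → R)))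
    (h : ∀ i : ℕ, 1 ≤ i → ∀ z ∈ (⋀[R]^i (Fin n → R)), dd xs z = 0 →
      ∃ w ∈ (⋀[R]^(i + 1) (Fin n → R)), z - dd xs w ∈ J) : HasTrivialMassey xs k := by
  classical
  let ι : ℕ → Type u := fun i => Module.Basis.ofVectorSpaceIndex k (Z k xs i ⧸ Bd k xs i)
  let bs : ∀ i, Module.Basis (ι i) k (Z k xs i ⧸ Bd k xs i) := fun i =>
    Module.Basis.ofVectorSpace k (Z k xs i ⧸ Bd k xs i)
  have hrep : ∀ i : ℕ, ∀ x : ι (i + 1), ∃ z : Z k xs (i + 1), Submodule.Quotient.mk z = bs (i + 1) x ∧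
      (z : KK R n) ∈ J := fun i x => exists_rep k xs J h hdd (i + 1) (by omega) _
  choose rep hrep1 hrep2 using hrep
  let B : Type u := Σ i : ℕ, ι (i + 1)
  let deg : B → ℕ := fun b => b.1 + 1
  let μ : List B → KK R n := fun w => match w with
    | [b] => (rep b.1 b.2 : KK R n)
    | _ => 0
  have hμ1 : ∀ b, μ [b] = rep b.1 b.2 := fun b => rfl
  have hμ2 : ∀ w : List B, 2 ≤ w.length → μ w = 0 := by
    intro w hw
    match w, hw with
    | [], hw => simp at hw
    | [a], hw => simp at hw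
    | a :: b :: l, hw => rfl
  refine ⟨B, deg, μ, ⟨?_, ?_⟩, ?_⟩
  · rintro ⟨i, x⟩
    exact ⟨by change 1 ≤ i + 1; omega, (rep i x).2.1, (rep i x).2.2⟩
  · rintro i z hi ⟨hz, hdz⟩
    obtain ⟨j, rfl⟩ : ∃ j, i = j + 1 := ⟨i - 1, by omega⟩
    let e : ι (j + 1) ≃ {b : B // deg b = j + 1} :=
      { toFun := fun x => ⟨⟨j, x⟩, rfl⟩
        invFun := fun b => (show b.1.1 = j from by
          have := b.2
          change b.1.1 + 1 = j + 1 at this
          omega) ▸ b.1.2
        left_inv := fun x => rfl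
        right_inv := by
          rintro ⟨⟨i, x⟩, hb⟩
          change i + 1 = j + 1 at hb
          obtain rfl : i = j := by omega
          rfl }
    let bb : Module.Basis {b : B // deg b = j + 1} k (Z k xs (j + 1) ⧸ Bd k xs (j + 1)) :=
      (bs (j + 1)).reindex e
    have hmem : ∀ b : {b : B // deg b = j + 1}, μ [b.1] ∈ Z k xs (j + 1) := by
      rintro ⟨⟨i, x⟩, hb⟩
      change i + 1 = j + 1 at hb
      obtain rfl : i = j := by omega
      exact (rep i x).2
    have hbb : ∀ b : {b : B // deg b = j + 1}, bb b = Submodule.Quotient.mk ⟨μ [b.1], hmem b⟩ := by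
      rintro ⟨⟨i, x⟩, hb⟩
      change i + 1 = j + 1 at hb
      obtain rfl : i = j := by omega
      rw [Module.Basis.reindex_apply]
      exact (hrep1 i x).symm
    have hsum : ∀ c : {b : B // deg b = j + 1} →₀ k,
        ((c.sum fun b a => a • (⟨μ [b.1], hmem b⟩ : Z k xs (j + 1)) : Z k xs (j + 1)) : KK R n) =
          c.sum fun b a => a • μ [b.1] := by
      intro c
      rw [Finsupp.sum, Finsupp.sum, AddSubmonoidClass.coe_finsetSum]
      rfl
    have hq : ∀ c : {b : B // deg b = j + 1} →₀ k,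
        (Submodule.Quotient.mk (c.sum fun b a => a • (⟨μ [b.1], hmem b⟩ : Z k xs (j + 1))) :
          Z k xs (j + 1) ⧸ Bd k xs (j + 1)) = bb.repr.symm c := by
      intro c
      rw [Module.Basis.repr_symm_apply, Finsupp.linearCombination_apply]
      change (Bd k xs (j + 1)).mkQ _ = _
      rw [Finsupp.sum, Finsupp.sum, map_sum]
      refine Finset.sum_congr rfl fun b _ => ?_
      rw [hbb, map_smul]
      rfl
    let z' : Z k xs (j + 1) := ⟨z, hz, hdz⟩
    have key : ∀ c : {b : B // deg b = j + 1} →₀ k,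
        (∃ w ∈ (⋀[R]^(j + 1 + 1) (Fin n → R)), z = (c.sum fun b a => a • μ [b.1]) + dd xs w) ↔
          c = bb.repr (Submodule.Quotient.mk z') := by
      intro c
      rw [← LinearEquiv.symm_apply_eq, ← hq, eq_comm, Submodule.Quotient.eq]
      constructor
      · rintro ⟨w, hw, h1⟩
        refine ⟨w, hw, ?_⟩
        change dd xs w = z - ((c.sum fun b a => a • (⟨μ [b.1], hmem b⟩ : Z k xs (j + 1)) :
          Z k xs (j + 1)) : KK R n)
        rw [hsum]
        exact (sub_eq_of_eq_add' h1).symm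
      · rintro ⟨w, hw, h1⟩
        refine ⟨w, hw, ?_⟩
        change dd xs w = z - ((c.sum fun b a => a • (⟨μ [b.1], hmem b⟩ : Z k xs (j + 1)) :
          Z k xs (j + 1)) : KK R n) at h1
        rw [hsum] at h1
        rw [h1]
        abel
    refine ⟨bb.repr (Submodule.Quotient.mk z'), (key _).2 rfl, fun c hc => (key c).1 hc⟩
  · intro w hw
    rw [hμ2 w hw]
    refine ⟨Submodule.zero_mem _, ?_⟩
    rw [map_zero]
    symm
    refine Finset.sum_eq_zero fun j hj => ?_
    rw [Finset.mem_Ico] at hj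
    have hprod : μ (w.take j) * μ (w.drop j) = 0 := by
      have hJ1 : ∀ v : List B, 1 ≤ v.length → μ v ∈ J := by
        intro v hv
        match v, hv with
        | [], hv => simp at hv
        | [a], hv => exact hrep2 a.1 a.2
        | a :: b :: l, hv => exact J.zero_mem
      refine hJ _ (hJ1 _ ?_) _ (hJ1 _ ?_)
      · rw [List.length_take]
        omega
      · rw [List.length_drop]
        omega
    rw [hprod, mul_zero]

end Pool.Agent.V113.Gol
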